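import Pool.Agent.Y99.RH.Triv

/-!
# One nontrivial symmetry forces evenness

The definitions `EDP`, `Deg0`, `FlowsCommute`, `NormalForm`, `c2`, `IsDeformation` are in
`Pool/Agent/H93RH/Defs.lean`, `IsTrivial` (`G = α + β u + γ F`) is in `Pool/Agent/Y99/RH/Triv.lean`.
-/

open MvPolynomial

namespace Pool.Agent.Results.MP_c4d6c8_mp.OneSymmetry

open Pool.Agent.H93RH Pool.Agent.Y99.RH

/-- `G` contains only even powers of `ε`. -/
def IsEven (G : EDP) : Prop := ∀ k, Odd k → PowerSeries.coeff k G = 0

/-- `u_s = ∂_x G`, `G` homogeneous of degree `0` (with any leading term), is a symmetry of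
`u_t = ∂_x F`. -/
def IsSymmetry (F G : EDP) : Prop := Deg0 G ∧ FlowsCommute F G

/-- **Dichotomy.** Let `F = u²/2 + O(ε²)` be homogeneous of degree `0` and in normal form with
`a = 0` and `c₂ ≠ 0`. Either all symmetries of `u_t = ∂_x F` are trivial (`G = α + β u + γ F`), or
`F` and all its symmetries contain only even powers of `ε`. In particular one nontrivial symmetry
forces evenness. **Hierarchies.** For every deformation of the Riemann hierarchy with `P₁` in normal
form, `a = 0`, `c₂ ≠ 0`, not only `P₁` but every `P_d` contains only even powers of `ε`. -/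
theorem result :
    (∀ F : EDP, Deg0 F → PowerSeries.coeff 0 F = C (PowerSeries.monomial 2 ((2 : ℂ)⁻¹)) →
      NormalForm F → c2 F ≠ 0 →
        (∀ G, IsSymmetry F G → IsTrivial F G) ∨
        (IsEven F ∧ ∀ G, IsSymmetry F G → IsEven G)) ∧
    (∀ P : ℕ → EDP, IsDeformation P → NormalForm (P 1) → c2 (P 1) ≠ 0 → ∀ d, IsEven (P d)) := by
  have : CharZero (FractionRing (PowerSeries ℂ)) :=
    charZero_of_injective_ringHom
      (((algebraMap (PowerSeries ℂ) (FractionRing (PowerSeries ℂ))).comp (PowerSeries.C (R := ℂ))).injective)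
  let ι := algebraMap (PowerSeries ℂ) (FractionRing (PowerSeries ℂ))
  have hι : Function.Injective ι := IsFractionRing.injective (PowerSeries ℂ) (FractionRing (PowerSeries ℂ))
  constructor
  · intro F hF hF0 hN hc
    by_cases hex : ∃ G, IsSymmetry F G ∧ (⇑(PowerSeries.derivative ℂ))^[3] (lead G) ≠ 0
    · right
      obtain ⟨G, ⟨hG, hFG⟩, hg⟩ := hex
      have hp := even_F ι hι hF hF0 hN hc hG hFG hg
      exact ⟨even_of_pp ι hι hF hp, fun G' hG' =>
        even_of_pp ι hι hG'.1 (even_G ι hF hF0 hN hG'.1 hG'.2 hp)⟩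
    · left
      push Not at hex
      intro G hG
      exact trivial_of ι hι hF hF0 hN hG.1 hG.2 (hex G hG)
  · intro P hP hN hc d
    have hF0 : PowerSeries.coeff 0 (P 1) = C (PowerSeries.monomial 2 ((2 : ℂ)⁻¹)) := by
      have := hP.lead 1
      simpa [Nat.factorial] using this
    have hG0 : PowerSeries.coeff 0 (P 2) = C (PowerSeries.monomial 3 ((6 : ℂ)⁻¹)) := by
      have := hP.lead 2
      simpa [Nat.factorial] using this
    have hg : (⇑(PowerSeries.derivative ℂ))^[3] (lead (P 2)) ≠ 0 := by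
      intro h0
      have h1 := coeff_iter3 (lead (P 2)) 0
      rw [h0, map_zero] at h1
      have h2 : PowerSeries.coeff 3 (lead (P 2)) = (6 : ℂ)⁻¹ := by
        unfold lead
        rw [hG0, coeff_C, if_pos rfl, PowerSeries.coeff_monomial, if_pos rfl]
      rw [show (0 : ℕ) + 3 = 3 from rfl, h2] at h1
      norm_num at h1
    have hp := even_F ι hι (hP.deg 1) hF0 hN hc (hP.deg 2) (hP.comm 1 2) hg
    exact even_of_pp ι hι (hP.deg d) (even_G ι (hP.deg 1) hF0 hN (hP.deg d) (hP.comm 1 d) hp)

end Pool.Agent.Results.MP_c4d6c8_mp.OneSymmetry
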